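import Pool.Agent.Work.MP_8c7e5b_q2.All

open MeasureTheory
open scoped ZeroAtInfty

namespace Pool.Agent.Results.MP_8c7e5b_an.AbsolutelyContinuous

universe v

variable {H : Type v} [NormedAddCommGroup H] [InnerProductSpace ℂ H] [CompleteSpace H]

/-- The operator `T` has trace `c`: in every countable orthonormal basis `e` the series of the
diagonal entries of `T` converges unconditionally (hence absolutely) to `c`. -/
def HasTrace (T : H →L[ℂ] H) (c : ℂ) : Prop :=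
  ∀ (ι : Type) [Countable ι] (e : HilbertBasis ι ℂ H), HasSum (fun i => inner ℂ (e i) (T (e i))) c

/-- The trace norm of `T` is at most `M` (nuclear representation). -/
def TraceNormLE (T : H →L[ℂ] H) (M : ℝ) : Prop :=
  ∃ x y : ℕ → H, Summable (fun k => ‖x k‖ * ‖y k‖) ∧ ∑' k, ‖x k‖ * ‖y k‖ ≤ M ∧
    ∀ z, HasSum (fun k => inner ℂ (y k) z • x k) (T z)

/-- `∫ f_x dν₁ + ∫ f_y dν₂` for the complex measures `ν₁ = g₁ μ`, `ν₂ = g₂ μ`. -/
noncomputable def dint (f : ℂ → ℂ) (μ : Measure ℂ) (g₁ g₂ : ℂ → ℂ) : ℂ :=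
  (∫ z : ℂ, fderiv ℝ f z 1 * g₁ z ∂μ) + ∫ z : ℂ, fderiv ℝ f z Complex.I * g₂ z ∂μ

/-- The function `f` of the bounded normal operator `N` (continuous functional calculus). -/
noncomputable def func (f : ℂ → ℂ) (N : H →L[ℂ] H) : H →L[ℂ] H := cfc f N

/-- The trace formula for bounded normal operators: for all `f` in `C_c^∞`
`trace (f(N₂) - f(N₁)) = ∫ f_x dν₁ + ∫ f_y dν₂` with `ν₁ = g₁ μ`, `ν₂ = g₂ μ`. -/
def TraceFormulaBounded (N₁ N₂ : H →L[ℂ] H) (μ : Measure ℂ) (g₁ g₂ : ℂ → ℂ) : Prop :=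
  ∀ f : ℂ → ℂ, ContDiff ℝ (⊤ : ℕ∞) f → HasCompactSupport f →
    HasTrace (func f N₂ - func f N₁) (dint f μ g₁ g₂)

/-- Q1 for bounded normal operators: for every pair with trace class difference the trace formula
holds for some finite complex measures `ν₁ = g₁ μ`, `ν₂ = g₂ μ` (`μ` a finite positive measure,
`g₁`, `g₂` in `L¹(μ)`). -/
def Q1Bounded : Prop := ∀ (H : Type v) [NormedAddCommGroup H] [InnerProductSpace ℂ H]
  [CompleteSpace H] [TopologicalSpace.SeparableSpace H] (N₁ N₂ : H →L[ℂ] H), IsStarNormal N₁ →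
  IsStarNormal N₂ → ∀ M : ℝ, TraceNormLE (N₂ - N₁) M →
  ∃ (μ : Measure ℂ) (g₁ g₂ : ℂ → ℂ), IsFiniteMeasure μ ∧ Integrable g₁ μ ∧ Integrable g₂ μ ∧
    TraceFormulaBounded N₁ N₂ μ g₁ g₂

/-- `N` is a (possibly unbounded) normal operator: densely defined, closed, `dom N* = dom N` and
`‖N* x‖ = ‖N x‖` for `x` in it. -/
def IsNormal (N : H →ₗ.[ℂ] H) : Prop :=
  Dense (N.domain : Set H) ∧ N.IsClosed ∧ N.adjoint.domain = N.domain ∧
    ∀ x y y' : H, (x, y) ∈ N.graph → (x, y') ∈ N.adjoint.graph → ‖y'‖ = ‖y‖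

variable (H) in
/-- star homomorphisms from `C₀(ℂ)` to the bounded operators -/
abbrev Calc : Type v := C₀(ℂ, ℂ) →⋆ₙₐ[ℂ] (H →L[ℂ] H)

/-- `π f`, written `f(N)` below -/
noncomputable def ev (π : Calc H) (f : C₀(ℂ, ℂ)) : H →L[ℂ] H := π f

/-- `π f = f(N)`, `f ∈ C₀(ℂ)`, is the functional calculus of the normal operator `N`: a
nondegenerate star homomorphism with `(x, y)` in the graph of `N` if and only if
`(z f)(N) x = f(N) y` for all `f ∈ C₀(ℂ)` with `z f ∈ C₀(ℂ)`. -/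
def IsCalculus (N : H →ₗ.[ℂ] H) (π : Calc H) : Prop :=
  (∀ x : H, (∀ f, ev π f x = 0) → x = 0) ∧
  ∀ x y : H, (x, y) ∈ N.graph ↔ ∀ f g : C₀(ℂ, ℂ), (∀ z : ℂ, g z = z * f z) → ev π g x = ev π f y

/-- `N₂ - N₁ = D`: the domains are equal and `N₂ x = N₁ x + D x` for all `x` in the domain. -/
def Difference (N₁ N₂ : H →ₗ.[ℂ] H) (D : H →L[ℂ] H) : Prop :=
  ∀ x y : H, (x, y) ∈ N₁.graph ↔ (x, y + D x) ∈ N₂.graph

/-- The trace formula for normal operators with functional calculi `π₁, π₂`: for all `f` in `C_c^∞`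
`trace (f(N₂) - f(N₁)) = ∫ f_x dν₁ + ∫ f_y dν₂` with `ν₁ = g₁ μ`, `ν₂ = g₂ μ`. -/
def TraceFormula (π₁ π₂ : Calc H) (μ : Measure ℂ) (g₁ g₂ : ℂ → ℂ) : Prop :=
  ∀ f : C₀(ℂ, ℂ), ContDiff ℝ (⊤ : ℕ∞) f → HasCompactSupport f →
    HasTrace (ev π₂ f - ev π₁ f) (dint f μ g₁ g₂)

/-- Absolutely continuous measures `g₁ dx dy`, `g₂ dx dy` of total mass at most `K` in the trace
formula for `N₁, N₂`: the functional calculi of `N₁` and `N₂` exist, and the formula holds for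
them. -/
def HasDensities (N₁ N₂ : H →ₗ.[ℂ] H) (K : ℝ) : Prop :=
  ∃ g₁ g₂ : ℂ → ℂ, Integrable g₁ ∧ Integrable g₂ ∧ (∫ z, ‖g₁ z‖) + (∫ z, ‖g₂ z‖) ≤ K ∧
    (∃ π₁, IsCalculus N₁ π₁) ∧ (∃ π₂, IsCalculus N₂ π₂) ∧
    ∀ π₁ π₂, IsCalculus N₁ π₁ → IsCalculus N₂ π₂ → TraceFormula π₁ π₂ volume g₁ g₂

/-- Absolutely continuous measures in the trace formula.  If Q1 holds (for bounded normal operators),
then there is a constant `C` such that for all normal operators `N₁`, `N₂`, bounded or not, with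
`N₂ - N₁ = D` of trace norm at most `M` there are `g₁, g₂ ∈ L¹(ℝ²)` of norm at most `C M` with
`trace (f(N₂) - f(N₁)) = ∫ f_x g₁ + ∫ f_y g₂` for all `f` in `C_c^∞`. -/
theorem result : Q1Bounded.{v} → ∃ C : ℝ, ∀ (H : Type v) [NormedAddCommGroup H]
    [InnerProductSpace ℂ H] [CompleteSpace H] [TopologicalSpace.SeparableSpace H]
    (N₁ N₂ : H →ₗ.[ℂ] H), IsNormal N₁ → IsNormal N₂ →
    ∀ (D : H →L[ℂ] H) (M : ℝ), TraceNormLE D M → Difference N₁ N₂ D →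
      HasDensities N₁ N₂ (C * M) := by
  intro h
  obtain ⟨C, hC⟩ := Pool.Q2.all_SPX.{v} h
  refine ⟨C, ?_⟩
  intro H _ _ _ _ N₁ N₂ h₁ h₂ D M hD hd
  exact hC H N₁ N₂ ⟨h₁.1, h₁.2.1, h₁.2.2.1, h₁.2.2.2⟩ ⟨h₂.1, h₂.2.1, h₂.2.2.1, h₂.2.2.2⟩ D M hD hd

end Pool.Agent.Results.MP_8c7e5b_an.AbsolutelyContinuous
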