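import Pool.Agent.Work.Bes.All

open MeasureTheory

namespace Pool.Agent.Results.MP_8c7e5b_an.BesovTwo

universe v

variable {H : Type v} [NormedAddCommGroup H] [InnerProductSpace ℂ H] [CompleteSpace H]

/-- The operator `T` has trace `c`: in every countable orthonormal basis `e` the series of the
diagonal entries of `T` converges unconditionally (hence absolutely) to `c`. -/
def HasTrace (T : H →L[ℂ] H) (c : ℂ) : Prop :=
  ∀ (ι : Type) [Countable ι] (e : HilbertBasis ι ℂ H), HasSum (fun i => inner ℂ (e i) (T (e i))) c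

/-- The function `f` of the normal operator `N` (continuous functional calculus). -/
noncomputable def func (f : ℂ → ℂ) (N : H →L[ℂ] H) : H →L[ℂ] H := cfc f N

/-- The trace norm of `T` is at most `M` (nuclear representation). -/
def TraceNormLE (T : H →L[ℂ] H) (M : ℝ) : Prop :=
  ∃ x y : ℕ → H, Summable (fun k => ‖x k‖ * ‖y k‖) ∧ ∑' k, ‖x k‖ * ‖y k‖ ≤ M ∧
    ∀ z, HasSum (fun k => inner ℂ (y k) z • x k) (T z)

/-- The second differences of `f` with steps of length at most `2^(-j) R` are bounded by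
`w j * (2^(-j) R)`, for every `j ≥ 0`. For `R = 1` and fixed `f`, the infimum of
`(∑' j, w j ^ 2) ^ (1 / 2)` over all such `w` is a seminorm of the Besov space `B^1_{∞,2}`. -/
def SecondDiff (f : ℂ → ℂ) (R : ℝ) (w : ℕ → ℝ) : Prop :=
  ∀ (j : ℕ) (z h : ℂ), ‖h‖ ≤ R / 2 ^ j → ‖f (z + h) + f (z - h) - 2 * f z‖ ≤ w j * (R / 2 ^ j)

/-- `|trace (f(N₂) - f(N₁))| ≤ C ‖N₂ - N₁‖_{S_1} (Lip f + ‖f‖_{B^1_{∞,2}})` for all pairs of
bounded normal operators with trace class difference; only the second differences of `f` with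
steps of length at most `R`, where `‖N₂ - N₁‖ ≤ R`, are used, and `C` is absolute. -/
theorem result : ∃ C : ℝ, ∀ (H : Type v) [NormedAddCommGroup H] [InnerProductSpace ℂ H]
    [CompleteSpace H] [TopologicalSpace.SeparableSpace H] (N₁ N₂ : H →L[ℂ] H),
    IsStarNormal N₁ → IsStarNormal N₂ → ∀ M : ℝ, TraceNormLE (N₂ - N₁) M →
    ∀ R : ℝ, 0 < R → ‖N₂ - N₁‖ ≤ R →
    ∀ f : ℂ → ℂ, ContDiff ℝ (⊤ : ℕ∞) f → HasCompactSupport f → ∀ (L : ℝ) (w : ℕ → ℝ),
    (∀ z : ℂ, ‖fderiv ℝ f z‖ ≤ L) → Summable (fun j => w j ^ 2) → SecondDiff f R w →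
    ∃ c : ℂ, HasTrace (func f N₂ - func f N₁) c ∧
      ‖c‖ ≤ C * M * (L + Real.sqrt (∑' j, w j ^ 2)) := by
  obtain ⟨C, -, hC⟩ := Pool.Bes.final.{v}
  refine ⟨C, fun H _ _ _ _ N₁ N₂ h₁ h₂ M hM R hR hN f hf hfc L w hL hw hd => ?_⟩
  exact hC H N₁ N₂ h₁ h₂ M hM R hR hN f hf hfc L w hL hw hd

end Pool.Agent.Results.MP_8c7e5b_an.BesovTwo
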