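import Pool.Agent.Work.LipGraph.Bimeas.Z
import Pool.Agent.Work.LipGraph.Var.V10

open MeasureTheory
open scoped ZeroAtInfty

namespace Pool.Agent.Results.MP_8c7e5b_an.Bimeasures

universe v

variable {H : Type v} [NormedAddCommGroup H] [InnerProductSpace ℂ H] [CompleteSpace H]

/-- The operator `T` has trace `c`: in every countable orthonormal basis `e` the series of the
diagonal entries of `T` converges unconditionally (hence absolutely) to `c`. -/
def HasTrace (T : H →L[ℂ] H) (c : ℂ) : Prop :=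
  ∀ (ι : Type) [Countable ι] (e : HilbertBasis ι ℂ H), HasSum (fun i => inner ℂ (e i) (T (e i))) c

/-- The function `f` of the normal operator `N` (continuous functional calculus). -/
noncomputable def func (f : ℂ → ℂ) (N : H →L[ℂ] H) : H →L[ℂ] H := cfc f N

/-- The trace norm of `T` is at most `M` (nuclear representation). -/
def TraceNormLE (T : H →L[ℂ] H) (M : ℝ) : Prop :=
  ∃ x y : ℕ → H, Summable (fun k => ‖x k‖ * ‖y k‖) ∧ ∑' k, ‖x k‖ * ‖y k‖ ≤ M ∧
    ∀ z, HasSum (fun k => inner ℂ (y k) z • x k) (T z)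

/-- Bilinear forms on `C₀(ℝ) × C₀(ℝ)`. -/
abbrev BilinearForm : Type := C₀(ℝ, ℂ) →ₗ[ℂ] C₀(ℝ, ℂ) →ₗ[ℂ] ℂ

/-- The bilinear form `b` is a bimeasure on `ℝ × ℝ` of norm at most `K`:
`|b(u, v)| ≤ K sup |u| sup |v|`. -/
def IsBimeasure (b : BilinearForm) (K : ℝ) : Prop := ∀ u v, ‖b u v‖ ≤ K * ‖u‖ * ‖v‖

/-- `F(x + i y) = ∑ g k (x) * v k (y)` with `∑ ‖g k‖ ‖v k‖ < ∞`. -/
def Expansion (F : ℂ → ℂ) (g v : ℕ → C₀(ℝ, ℂ)) : Prop :=
  Summable (fun k => ‖g k‖ * ‖v k‖) ∧ ∀ z : ℂ, HasSum (fun k => g k z.re * v k z.im) (F z)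

/-- The integral of `F` against the bimeasure `b` exists and is `c`: `F` has absolutely convergent
expansions into products, and each of them gives the value `c`. -/
def HasIntegral (b : BilinearForm) (F : ℂ → ℂ) (c : ℂ) : Prop :=
  (∃ g v, Expansion F g v) ∧ ∀ g v, Expansion F g v → HasSum (fun k => b (g k) (v k)) c

/-- The integral of the derivative of `F` in the direction `d` against the signed measure
`m₁ - m₂`. -/
noncomputable def dint (F : ℂ → ℂ) (d : ℂ) (m₁ m₂ : Measure ℂ) : ℂ :=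
  (∫ z : ℂ, fderiv ℝ F z d ∂m₁) - ∫ z : ℂ, fderiv ℝ F z d ∂m₂

/-- The trace formula for all pairs of bounded normal operators with trace class difference.
There are four finite positive measures (`ν₁ = μ 0 - μ 1`, `ν₂ = μ 2 - μ 3`) and two bimeasures
`b₁`, `b₂`, of mass and norm at most an absolute constant times the trace norm of the difference,
such that for all `f`, `h` in `C_c^∞` which agree on the spectrum of `N₁`
`trace (f(N₂) - f(N₁)) = ∫ (f-h)_x dν₁ + ∫ (f-h)_y dν₂ + ∫ h_x db₁ + ∫ h_y db₂`. -/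
theorem result : ∃ C : ℝ, ∀ (H : Type v) [NormedAddCommGroup H] [InnerProductSpace ℂ H]
    [CompleteSpace H] [TopologicalSpace.SeparableSpace H] (N₁ N₂ : H →L[ℂ] H),
    IsStarNormal N₁ → IsStarNormal N₂ → ∀ M : ℝ, TraceNormLE (N₂ - N₁) M →
    ∃ (μ : Fin 4 → Measure ℂ) (b₁ b₂ : BilinearForm),
      (∀ i, IsFiniteMeasure (μ i) ∧ (μ i Set.univ).toReal ≤ C * M) ∧
      IsBimeasure b₁ (C * M) ∧ IsBimeasure b₂ (C * M) ∧
      ∀ f h : ℂ → ℂ, ContDiff ℝ (⊤ : ℕ∞) f → HasCompactSupport f →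
        ContDiff ℝ (⊤ : ℕ∞) h → HasCompactSupport h → (∀ z ∈ spectrum ℂ N₁, f z = h z) →
        ∃ c₁ c₂ : ℂ,
          HasIntegral b₁ (fun z => fderiv ℝ h z 1) c₁ ∧
          HasIntegral b₂ (fun z => fderiv ℝ h z Complex.I) c₂ ∧
          HasTrace (func f N₂ - func f N₁)
            (dint (fun z => f z - h z) 1 (μ 0) (μ 1) +
              dint (fun z => f z - h z) Complex.I (μ 2) (μ 3) + (c₁ + c₂)) := by
  obtain ⟨C, hC0, hC⟩ := Pool.LG.BM.bimeasures.{v}
  refine ⟨max C 6144, fun H _ _ _ _ N₁ N₂ h₁ h₂ M hD => ?_⟩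
  obtain ⟨x, y, hs, hM, hz⟩ := hD
  have hM0 : 0 ≤ M := le_trans (tsum_nonneg fun k => by positivity) hM
  obtain ⟨b₁, b₂, n1, n2, hb⟩ := hC H N₁ N₂ h₁ h₂ x y M hs hM hz
  obtain ⟨μ, m1, m2, m3⟩ := Pool.Var.zeros_measures h₁ h₂ hs hz
  have hCM : C * M ≤ max C 6144 * M := mul_le_mul_of_nonneg_right (le_max_left _ _) hM0
  have hμM : ∀ i, (μ i Set.univ).toReal ≤ max C 6144 * M := fun i =>
    (m2 i).trans ((mul_le_mul_of_nonneg_left hM (by norm_num)).trans
      (mul_le_mul_of_nonneg_right (le_max_right _ _) hM0))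
  refine ⟨μ, Pool.LG.BM.restr b₁, Pool.LG.BM.restr b₂, fun i => ⟨m1 i, hμM i⟩,
    Pool.LG.BM.norm_restr b₁ (n1.trans hCM), Pool.LG.BM.norm_restr b₂ (n2.trans hCM),
    fun f h hf hfc hh hhc heq => ?_⟩
  obtain ⟨c₁, c₂, e1, e2, e3⟩ := hb h hh hhc
  have hsm : ∀ m : ℂ, ContDiff ℝ (⊤ : ℕ∞) fun z => fderiv ℝ h z m := by
    intro m
    have h1 : ContDiff ℝ (⊤ : ℕ∞) (fderiv ℝ h) := hh.fderiv_right (m := (⊤ : ℕ∞)) (by simp)
    exact h1.clm_apply contDiff_const
  have key : ∀ (b : BoundedContinuousFunction ℝ ℂ →L[ℂ] BoundedContinuousFunction ℝ ℂ →L[ℂ] ℂ)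
      (m c : ℂ), (∀ g v : ℕ → BoundedContinuousFunction ℝ ℂ, (Summable fun k => ‖g k‖ * ‖v k‖) →
        (∀ z : ℂ, HasSum (fun k => g k z.re * v k z.im) (fderiv ℝ h z m)) →
          ∑' k, b (g k) (v k) = c) →
      HasIntegral (Pool.LG.BM.restr b) (fun z => fderiv ℝ h z m) c := by
    intro b m c hc
    refine ⟨Pool.LG.BM.expand₀ (hsm m) (hhc.fderiv_apply (𝕜 := ℝ) m), fun g v hgv => ?_⟩
    obtain ⟨s1, s2⟩ := hgv
    have h1 := hc (fun k => Pool.LG.BM.jj (g k)) (fun k => Pool.LG.BM.jj (v k))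
      (by simpa only [Pool.LG.BM.norm_jj] using s1) s2
    have h2 : Summable fun k => Pool.LG.BM.restr b (g k) (v k) := by
      refine Summable.of_norm_bounded (g := fun k => ‖b‖ * (‖g k‖ * ‖v k‖))
        (s1.mul_left _) fun k => ?_
      exact (Pool.LG.BM.norm_restr b le_rfl _ _).trans (le_of_eq (by ring))
    rw [← h1]
    exact h2.hasSum
  refine ⟨c₁, c₂, key b₁ 1 c₁ e1, key b₂ Complex.I c₂ e2, fun ι _ e => ?_⟩
  have hfh : ContDiff ℝ (⊤ : ℕ∞) fun z => f z - h z := hf.sub hh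
  have hfhc : HasCompactSupport fun z => f z - h z := hfc.sub hhc
  have k1 := m3 (fun z => f z - h z) hfh hfhc (fun z hz => sub_eq_zero.2 (heq z hz)) ι e
  have k2 := e3 ι e
  have hsub : ∀ N : H →L[ℂ] H, IsStarNormal N →
      cfc (fun z => f z - h z) N = cfc f N - cfc h N := fun N hN =>
    cfc_sub f h N hf.continuous.continuousOn hh.continuous.continuousOn
  rw [hsub N₁ h₁, hsub N₂ h₂] at k1
  have hop : func f N₂ - func f N₁ =
      ((cfc f N₂ - cfc h N₂) - (cfc f N₁ - cfc h N₁)) + (cfc h N₂ - cfc h N₁) := by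
    unfold func
    abel
  have k3 := k1.add k2
  rw [hop]
  simp only [_root_.add_apply, inner_add_right]
  exact k3

end Pool.Agent.Results.MP_8c7e5b_an.Bimeasures
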