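import Pool.Agent.Work.LipGraph.Union.Final

open MeasureTheory

namespace Pool.Agent.Results.MP_8c7e5b_an.GraphUnions

universe v

variable {H : Type v} [NormedAddCommGroup H] [InnerProductSpace ℂ H] [CompleteSpace H]

/-- The operator `T` has trace `c`: in every countable orthonormal basis `e` the series of the
diagonal entries of `T` converges unconditionally (hence absolutely) to `c`. -/
def HasTrace (T : H →L[ℂ] H) (c : ℂ) : Prop :=
  ∀ (ι : Type) [Countable ι] (e : HilbertBasis ι ℂ H), HasSum (fun i => inner ℂ (e i) (T (e i))) c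

/-- `∫ v · (derivative of f in the direction v) dν` for the real measure `ν = μ₁ - μ₂`. -/
noncomputable def dint (f : ℂ → ℂ) (v : ℂ) (μ₁ μ₂ : Measure ℂ) : ℂ :=
  (∫ z : ℂ, fderiv ℝ f z v ∂μ₁) - ∫ z : ℂ, fderiv ℝ f z v ∂μ₂

/-- The function `f` of the normal operator `N` (continuous functional calculus). -/
noncomputable def func (f : ℂ → ℂ) (N : H →L[ℂ] H) : H →L[ℂ] H := cfc f N

/-- The trace formula with real measures of total mass at most `2 m`: there are finite positive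
measures `μ 0, …, μ 3` of mass at most `m` with
`trace (f(N₂) - f(N₁)) = ∫ f_x d(μ 0 - μ 1) + ∫ f_y d(μ 2 - μ 3)` for all `f` in `C_c^∞`. -/
def TraceFormula (N₁ N₂ : H →L[ℂ] H) (m : ℝ) : Prop :=
  ∃ μ : Fin 4 → Measure ℂ, (∀ i, IsFiniteMeasure (μ i)) ∧ (∀ i, (μ i Set.univ).toReal ≤ m) ∧
    ∀ f : ℂ → ℂ, ContDiff ℝ (⊤ : ℕ∞) f → HasCompactSupport f →
      HasTrace (func f N₂ - func f N₁) (dint f 1 (μ 0) (μ 1) + dint f Complex.I (μ 2) (μ 3))

/-- The trace norm of `T` is at most `M` (nuclear representation). -/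
def TraceNormLE (T : H →L[ℂ] H) (M : ℝ) : Prop :=
  ∃ x y : ℕ → H, Summable (fun k => ‖x k‖ * ‖y k‖) ∧ ∑' k, ‖x k‖ * ‖y k‖ ≤ M ∧
    ∀ z, HasSum (fun k => inner ℂ (y k) z • x k) (T z)

/-- The spectrum of `N` is contained in the union of the graphs of `n` functions `ℝ → ℝ` with
Lipschitz constant `L`, each in its own rotated coordinate system. -/
def OnGraphs (N : H →L[ℂ] H) (n : ℕ) (L : NNReal) : Prop :=
  ∃ (u : Fin n → ℂ) (φ : Fin n → ℝ → ℝ), (∀ k, ‖u k‖ = 1) ∧ (∀ k, LipschitzWith L (φ k)) ∧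
    ∀ z ∈ spectrum ℂ N, ∃ k, (u k * z).im = φ k (u k * z).re

theorem TraceFormula.symm {N₁ N₂ : H →L[ℂ] H} {m : ℝ} (h : TraceFormula N₁ N₂ m) :
    TraceFormula N₂ N₁ m := by
  obtain ⟨μ, h1, h2, h3⟩ := h
  refine ⟨![μ 1, μ 0, μ 3, μ 2], fun i => ?_, fun i => ?_, fun f hf hfc => ?_⟩
  · fin_cases i
    exacts [h1 1, h1 0, h1 3, h1 2]
  · fin_cases i
    exacts [h2 1, h2 0, h2 3, h2 2]
  · intro ι _ e
    have h4 := (h3 f hf hfc ι e).neg
    have h5 : -(dint f 1 (μ 0) (μ 1) + dint f Complex.I (μ 2) (μ 3)) =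
        dint f 1 (μ 1) (μ 0) + dint f Complex.I (μ 3) (μ 2) := by
      unfold dint; ring
    rw [h5] at h4
    refine h4.congr_fun ?_ |> id
    intro i
    rw [← inner_neg_right]
    congr 1
    simp only [_root_.sub_apply, neg_sub]

theorem TraceNormLE.symm {N₁ N₂ : H →L[ℂ] H} {M : ℝ} (h : TraceNormLE (N₂ - N₁) M) :
    TraceNormLE (N₁ - N₂) M := by
  obtain ⟨x, y, h1, h2, h3⟩ := h
  refine ⟨fun k => -x k, y, by simpa using h1, by simpa using h2, fun z => ?_⟩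
  have h4 := (h3 z).neg
  rw [← _root_.neg_apply, neg_sub] at h4
  refine h4.congr_fun ?_ |> id
  intro k
  rw [smul_neg]

/-- The trace formula for all pairs of bounded normal operators with trace class difference when
the spectrum of one of them lies in a union of `n` rotated graphs of `L`-Lipschitz functions, with
masses bounded by `C n (1 + L)` times the trace norm of the difference; `C` is absolute. -/
theorem result : ∃ C : ℝ, ∀ (H : Type v) [NormedAddCommGroup H] [InnerProductSpace ℂ H]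
    [CompleteSpace H] [TopologicalSpace.SeparableSpace H] (N₁ N₂ : H →L[ℂ] H),
    IsStarNormal N₁ → IsStarNormal N₂ → ∀ (n : ℕ) (L : NNReal),
    OnGraphs N₁ n L ∨ OnGraphs N₂ n L → ∀ M : ℝ, TraceNormLE (N₂ - N₁) M →
    TraceFormula N₁ N₂ (C * n * (1 + L) * M) := by
  obtain ⟨C, -, hC⟩ := Pool.LG.graphUnions.{v} Pool.LG.stmt_LOC'.{v}
  refine ⟨C, fun H _ _ _ _ N₁ N₂ h₁ h₂ n L hL M hD => ?_⟩
  have key : ∀ N₁ N₂ : H →L[ℂ] H, IsStarNormal N₁ → IsStarNormal N₂ → OnGraphs N₁ n L →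
      TraceNormLE (N₂ - N₁) M → TraceFormula N₁ N₂ (C * n * (1 + L) * M) := by
    intro N₁ N₂ h₁ h₂ hL hD
    obtain ⟨u, φ, hu, hφ, hsp⟩ := hL
    obtain ⟨x, y, hs, hM, hz⟩ := hD
    obtain ⟨μ, h3, h4, h5⟩ := hC H N₁ N₂ h₁ h₂ x y M hs hM hz n u φ L hu hφ hsp
    refine ⟨μ, h3, h4, fun f hf hfc => ?_⟩
    have h6 := h5 f hf hfc
    have h7 : dint f 1 (μ 0) (μ 1) + dint f Complex.I (μ 2) (μ 3) =
        (∫ z : ℂ, fderiv ℝ f z 1 ∂(μ 0)) - (∫ z : ℂ, fderiv ℝ f z 1 ∂(μ 1)) +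
              (∫ z : ℂ, fderiv ℝ f z Complex.I ∂(μ 2)) -
              (∫ z : ℂ, fderiv ℝ f z Complex.I ∂(μ 3)) := by
      unfold dint; ring
    rw [h7]
    exact h6
  rcases hL with hL | hL
  · exact key N₁ N₂ h₁ h₂ hL hD
  · exact (key N₂ N₁ h₂ h₁ hL hD.symm).symm

end Pool.Agent.Results.MP_8c7e5b_an.GraphUnions
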